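import Pool.Agent.Helper65.WindowMain
import Pool.Agent.Helper65.HighRange
import Pool.Agent.Helper65.MidRange

/-!
# Dimension versus width of random graph orders, uniformly in `p`

The sum below is the probability, for the random graph order `P_{n,p}` on `Fin n` (each pair
`a < b` is an edge independently with probability `p`; the order is the transitive closure), of
the event that `ε * |A| ≤ d` for every antichain `A` and every realizer with `d` linear
orders, i.e. that `dim P_{n,p} ≥ ε Width P_{n,p}`.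
-/

set_option autoImplicit false
open scoped Classical
open Filter Topology

namespace Pool.Agent.Results.MP_dd10ca_co.UniformDimWidth

/-- There is `ε > 0` such that for every `δ > 0`, for all large `n` and all `p` with
`log n / n ≤ p ≤ 1`, the random graph order satisfies `dim ≥ ε Width` with probability at
least `1 - δ`. -/
theorem result :
    ∃ ε : ℝ, 0 < ε ∧ ∀ δ : ℝ, 0 < δ → ∃ N : ℕ, ∀ n : ℕ, N ≤ n → ∀ p : ℝ,
      Real.log (n : ℝ) / (n : ℝ) ≤ p → p ≤ 1 →
      1 - δ ≤
        ∑ E ∈ ((Finset.univ.filter (fun e : Fin n × Fin n => e.1 < e.2)).powerset.filter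
            (fun E => ∀ d : ℕ, ∀ A : Finset (Fin n),
              (∀ x ∈ A, ∀ y ∈ A, ¬ Relation.TransGen (fun a b => (a, b) ∈ E) x y) →
              (∃ σ : Fin d → Equiv.Perm (Fin n), ∀ x y : Fin n, x ≠ y →
                (Relation.TransGen (fun a b => (a, b) ∈ E) x y ↔ ∀ k : Fin d, σ k x < σ k y)) →
              ε * (A.card : ℝ) ≤ (d : ℝ))),
          p ^ E.card * (1 - p) ^
            ((Finset.univ.filter (fun e : Fin n × Fin n => e.1 < e.2)).card - E.card) := by
  obtain ⟨R, hR, hRbig⟩ : ∃ R : ℕ, 1 ≤ R ∧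
      3 * (32 * (400 * Real.exp 33) ^ 2 * 4096) ≤ (R : ℝ) := by
    refine ⟨⌈3 * (32 * (400 * Real.exp 33) ^ 2 * 4096)⌉₊ + 1, by omega, ?_⟩
    push_cast
    have := Nat.le_ceil (3 * (32 * (400 * Real.exp 33) ^ 2 * 4096))
    linarith
  have hW : Pool.Agent.Helper65.WindowMain R (1 / 4096) := fun δ hδ =>
    Pool.Agent.Helper65.window_asym hR hRbig hδ
  obtain ⟨ε1, hε1, hmid⟩ := Pool.Agent.Helper65.mid_range hR hW
  refine ⟨min ε1 (1 / 200), lt_min hε1 (by norm_num), fun δ hδ => ?_⟩
  have h2n : ∀ᶠ n : ℕ in atTop, (2 : ℝ) / n < δ := by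
    have h1 : Tendsto (fun n : ℕ => (2 : ℝ) / n) atTop (𝓝 0) :=
      tendsto_const_div_atTop_nhds_zero_nat 2
    exact h1.eventually (gt_mem_nhds hδ)
  rw [← Filter.eventually_atTop]
  filter_upwards [hmid δ hδ, Pool.Agent.Helper65.high_range, h2n] with n h1 h2 h3 p hp hp1
  have hp0 : 0 ≤ p :=
    le_trans (div_nonneg (Real.log_natCast_nonneg n) (Nat.cast_nonneg n)) hp
  have hsum := Pool.Agent.Helper65.sum_eq_Pr p n
    (Pool.Agent.Helper65.Good (min ε1 (1 / 200)) n)
  refine le_trans ?_ (le_of_eq hsum.symm)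
  have hmono : ∀ ε' : ℝ, min ε1 (1 / 200) ≤ ε' →
      Pool.Agent.Helper65.Pr p (Finset.univ.filter (fun e : Fin n × Fin n => e.1 < e.2))
        (Pool.Agent.Helper65.Good ε' n) ≤
      Pool.Agent.Helper65.Pr p (Finset.univ.filter (fun e : Fin n × Fin n => e.1 < e.2))
        (Pool.Agent.Helper65.Good (min ε1 (1 / 200)) n) := by
    intro ε' hε'
    exact Pool.Agent.Helper65.Pr_mono hp0 hp1
      (fun E _ hE => Pool.Agent.Helper65.Good_mono hε' hE)
  rcases le_total p ((Real.log (Real.log n)) ^ 4 / Real.log n) with h4 | h4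
  · exact (h1 p hp h4).trans (hmono ε1 (min_le_left _ _))
  · have h5 := h2 p h4 hp1
    have h6 := hmono (1 / 200) (min_le_right _ _)
    linarith

end Pool.Agent.Results.MP_dd10ca_co.UniformDimWidth
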